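import Pool.Agent.T9h60.BH.Main

set_option autoImplicit false

/-!
# The density of the primes `k² + 3 k + c` for almost all `c` which are arithmetically close to `1`

The question for `k² + 3 k + 1` is whether `a(n) / π(10 ^ n)` tends to a limit between `1.77` and `1.78`; by Bateman and
Horn the limit should be `C / 2`. Here it is proved that `C / 2` lies between `1.77` and `1.78` and that the polynomials
`k² + 3 k + c` behave in this way for almost all constant terms `c` which are close to `1` in the topology of the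
profinite integers, however small the neighbourhood is: for every `ε > 0` there is `z₁` such that for all large `N` and
for every modulus `q ≤ N ^ (1 - ρ)` with at most `(log N) ^ T` divisors which is divisible by all primes up to some `z`,
`z₁ ≤ z ≤ log N`, and has few prime divisors above `z` (`∑ 1/p ≤ 1/z`), all but at most `ε N² / q` of the integers
`1 ≤ c ≤ N²`, `c ≡ 1 (mod q)`, satisfy: every interval `(y₁, y₂]`, `y₂ ≤ N (log N) ^ A`, of length at least
`N / (log N) ^ A` contains `(C / 2 + O(ε)) (y₂ - y₁) / log N` integers `k` with `k² + 3 k + c` prime, with the constant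
`C` of the polynomial `k² + 3 k + 1`, and the number of the `k ≤ y` with `k² + 3 k + c` prime is between `1.77 π(y)` and
`1.78 π(y)` for all `y` between `N / (log N) ^ A` and `N (log N) ^ A` (for example `y = N = 10 ^ n`, or `y = N log N`,
where `c` is small compared with `y²`). The same holds for the classes `c ≡ c₀ (mod q)`, where only `c₀ ≡ 1` modulo the
primes up to `z` is required, and `gcd(9 - 4 c₀, q) ≤ (log N) ^ T`.

The condition on the prime divisors of `q` above `z` is necessary: they change the constant.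

Proof. The starting files `R460/SB`, `R460/SC` (circle method in a residue class; large sieve for the real characters)
give the formula of Bateman and Horn with the constant `C(c)` of each polynomial. `T9h60/BH`: `C(c)` is close to `C` for
almost all `c` of the class (variance of `∑ (9 - 4 c / p) / p` over the primes `z < p ≤ (log N) ^ 11` which do not divide
`q`); `∏ (1 - χ(p)/p)⁻¹ = L(1, χ)` for the real character modulo `5` (Abel's theorem), `L(1, χ)` from `50` terms of the
series, the remaining product from the primes up to `600`; the prime number theorem.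
-/

namespace Pool.Agent.Results.MP_d57abb_nt.CloseConstantTerms

open Finset Filter Topology

/-- The polynomial `k² + 3 k + c`. -/
def f (c : ℤ) (k : ℕ) : ℤ := (k : ℤ) ^ 2 + 3 * k + c

/-- `ω(p)`: the number of the residues `k` modulo `p` with `k² + 3 k + c ≡ 0`. -/
def omega (c : ℤ) (p : ℕ) : ℕ := ((range p).filter (fun k : ℕ => (p : ℤ) ∣ f c k)).card

/-- The product `∏_{p ≤ z} (1 - ω(p)/p) (1 - 1/p)⁻¹`. -/
noncomputable def product (c : ℤ) (z : ℕ) : ℝ :=
  ∏ p ∈ (Icc 1 z).filter Nat.Prime, (1 - (omega c p : ℝ) / p) / (1 - 1 / (p : ℝ))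

/-- The number of the `k`, `y₁ < k ≤ y₂`, for which `k² + 3 k + c` is a prime. -/
def count (c : ℤ) (y₁ y₂ : ℕ) : ℕ := ((Ioc y₁ y₂).filter (fun k : ℕ => (f c k).toNat.Prime)).card

/-- The class `c₀` modulo `q` is close to `1`: all primes `p ≤ z` divide `q` and `c₀ - 1`, and the sum of `1 / p` over
the prime divisors `p > z` of `q` is at most `1 / z`. -/
def Close (z q : ℕ) (c₀ : ℤ) : Prop :=
  (∀ p : ℕ, p.Prime → p ≤ z → p ∣ q ∧ (p : ℤ) ∣ c₀ - 1) ∧
    ∑ p ∈ q.primeFactors.filter (fun p => z < p), 1 / (p : ℝ) ≤ 1 / z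

/-- The conclusion for one polynomial `k² + 3 k + c`: every interval `(y₁, y₂]`, `y₂ ≤ N (log N) ^ A`, of length at
least `N / (log N) ^ A` contains `C / 2 * (y₂ - y₁) / log N` integers `k` for which it is a prime, with a relative error
which is given by `ε`, and for all `y` with `N / (log N) ^ A ≤ y ≤ N (log N) ^ A` the number of the `k ≤ y` for which it
is a prime is between `1.77 π(y)` and `1.78 π(y)`. -/
def Good (C ε : ℝ) (A N : ℕ) (c : ℤ) : Prop :=
  (∀ y₁ y₂ : ℕ, y₁ ≤ y₂ → (y₂ : ℝ) ≤ N * Real.log N ^ A → (N : ℝ) / Real.log N ^ A ≤ (y₂ : ℝ) - y₁ →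
    |(count c y₁ y₂ : ℝ) - C / 2 * (((y₂ : ℝ) - y₁) / Real.log N)| ≤ ε * (((y₂ : ℝ) - y₁) / Real.log N)) ∧
  ∀ y : ℕ, (N : ℝ) / Real.log N ^ A ≤ y → (y : ℝ) ≤ N * Real.log N ^ A →
    1.77 * (Nat.primeCounting y : ℝ) ≤ count c 0 y ∧ (count c 0 y : ℝ) ≤ 1.78 * Nat.primeCounting y

open Classical in
/-- The number of the integers `1 ≤ c ≤ N²`, `c ≡ c₀ (mod q)`, for which the conclusion fails. -/
noncomputable def exceptions (C ε : ℝ) (A N q : ℕ) (c₀ : ℤ) : ℕ :=
  ((Icc 1 ((N : ℤ) ^ 2)).filter (fun c : ℤ => c ≡ c₀ [ZMOD q] ∧ ¬ Good C ε A N c)).card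

/-- The product over all primes for `k² + 3 k + 1` converges to a number `C` with `1.77 < C / 2 < 1.78`, and for all
`ε, ρ > 0` and `A, T` there are `z₁`, `N₀` such that for `N ≥ N₀`, for `z₁ ≤ z ≤ log N`, for every modulus
`1 ≤ q ≤ N ^ (1 - ρ)` with at most `(log N) ^ T` divisors and every `c₀` with `gcd(9 - 4 c₀, q) ≤ (log N) ^ T` (`c₀ = 1`
for example) such that the class `c₀` modulo `q` is close to `1`, the conclusion fails for at most `ε N² / q` of the
integers `1 ≤ c ≤ N²`, `c ≡ c₀ (mod q)`. -/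
theorem result : ∃ C : ℝ, Tendsto (product 1) atTop (𝓝 C) ∧ 1.77 < C / 2 ∧ C / 2 < 1.78 ∧
    ∀ ε ρ : ℝ, 0 < ε → 0 < ρ → ∀ A T : ℕ, ∃ z₁ N₀ : ℕ, ∀ N : ℕ, N₀ ≤ N →
      ∀ z : ℕ, z₁ ≤ z → (z : ℝ) ≤ Real.log N →
      ∀ q : ℕ, 1 ≤ q → (q : ℝ) ≤ (N : ℝ) ^ (1 - ρ) → (q.divisors.card : ℝ) ≤ Real.log N ^ T →
      ∀ c₀ : ℤ, (Int.gcd (9 - 4 * c₀) q : ℝ) ≤ Real.log N ^ T → Close z q c₀ →
        (exceptions C ε A N q c₀ : ℝ) ≤ ε * ((N : ℝ) ^ 2 / q) := by
  classical
  obtain ⟨C, hC⟩ := Pool.Agent.T9h60.BH.const_exists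
  obtain ⟨h1, h2⟩ := Pool.Agent.T9h60.BH.const_bds C hC
  refine ⟨C, ?_, by linarith, by linarith, fun ε ρ hε hρ A T => ?_⟩
  · refine (Pool.Agent.T9h60.BH.Sz_one_lim hC).congr (fun z => ?_)
    rw [Pool.Agent.R460.SB.Sz_prod]
    unfold product Pool.Agent.H373R2.T7.pz
    refine prod_congr rfl fun p _ => ?_
    have e : omega 1 p = Pool.Agent.H373R2.T7.nuB (Pool.Agent.R460.SB.QS (-1) (-3) 1) p := by
      unfold omega Pool.Agent.H373R2.T7.nuB Pool.Agent.R460.SB.QS
      congr 1
      ext m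
      simp only [mem_filter]
      have e1 : f 1 m = 1 - (-1 * (m : ℤ) ^ 2 + -3 * (m : ℤ)) := by
        unfold f
        ring
      rw [e1]
    rw [e]
  · obtain ⟨z₁, N₀, h3⟩ := Pool.Agent.T9h60.BH.near_main C hC ε ρ hε hρ A T
    refine ⟨z₁, N₀, fun N hN z hz hzN q hq1 hqN hτ c₀ hg hnear => ?_⟩
    exact h3 N hN z hz hzN q hq1 hqN hτ c₀ hg hnear

end Pool.Agent.Results.MP_d57abb_nt.CloseConstantTerms
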