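import Pool.Agent.T9h60.BH.Thin

set_option autoImplicit false

/-!
# The density of the primes `k² + b k + 1` for almost all `b` which are arithmetically close to `3`

The question for `k² + 3 k + 1` is whether `a(n) / π(10 ^ n)` tends to a limit between `1.77` and `1.78`; by Bateman and
Horn the limit should be `C / 2`. Here only the linear coefficient `3` is changed: for almost all `b ≤ H` which are close
to `3` in the topology of the profinite integers the number of the `k ≤ y` with `k² + b k + 1` prime is between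
`1.77 π(y)` and `1.78 π(y)`, for all `y` with `H / K ≤ y ≤ K H`, and it is `(C / 2) y / log H` up to `ε H / log H`, with
the constant `C` of the polynomial `k² + 3 k + 1`. Precisely, for every `ε > 0` there is `z₁` such that for every
`z ≥ z₁` and every modulus `W` which is divisible by all primes up to `z` and has few prime divisors above `z`
(`∑ 1/p ≤ 1/z`) this holds for all `b ≤ H`, `b ≡ 3 (mod W)`, with at most `ε H / W` exceptions, if `H` is large.

The polynomials form a thin family: there are at most `H` of them, with values up to `(K + 1)² H²`, and the exceptional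
set is small in each of the neighbourhoods. The starting file `ThinFamilyDensity` has the formula of Bateman and Horn
for almost all polynomials `k² + 3 k + 1 - (h² + 3 h)` of the full family (`b = 2 h + 3` after a shift), with the
constants of the single polynomials.

Proof. `N728/QU` (`finalGU`): bilinear sums over `1 + u v` with bounded functions of `v - u`, for the truncated products
up to a large constant `Z` which depends on `W`; `T9h60/BH`: the truncated products are close to `C` for almost all
`b ≡ 3 (mod W)` (variance of the local factors at the primes `z < p ≤ Z` over the multiples of `W`), the convergence and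
the numerical value of `C` (`∏ (1 - χ(p)/p)⁻¹ = L(1, χ)` for the real character modulo `5`), the prime number theorem.
-/

namespace Pool.Agent.Results.MP_d57abb_nt.CloseLinearCoefficients

open Finset Filter Topology

/-- `ω(p)` for `k² + 3 k + 1`: the number of the residues `k` modulo `p` with `k² + 3 k + 1 ≡ 0`. -/
def omega (p : ℕ) : ℕ := ((range p).filter (fun k : ℕ => p ∣ k ^ 2 + 3 * k + 1)).card

/-- The product `∏_{p ≤ z} (1 - ω(p)/p) (1 - 1/p)⁻¹` for `k² + 3 k + 1`. -/
noncomputable def product (z : ℕ) : ℝ :=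
  ∏ p ∈ (Icc 1 z).filter Nat.Prime, (1 - (omega p : ℝ) / p) / (1 - 1 / (p : ℝ))

/-- The number of the `k`, `1 ≤ k ≤ y`, for which `k² + b k + 1` is a prime. -/
def count (b y : ℕ) : ℕ := ((Icc 1 y).filter (fun k : ℕ => (k ^ 2 + b * k + 1).Prime)).card

/-- The class of `3` modulo `W` is a small neighbourhood of `3`: all primes `p ≤ z` divide `W`, and the sum of `1 / p`
over the prime divisors `p > z` of `W` is at most `1 / z`. -/
def Small (z W : ℕ) : Prop :=
  (∀ p : ℕ, p.Prime → p ≤ z → p ∣ W) ∧ ∑ p ∈ W.primeFactors.filter (fun p => z < p), 1 / (p : ℝ) ≤ 1 / z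

/-- The conclusion for one polynomial `k² + b k + 1`. -/
def Good (C ε : ℝ) (K H b : ℕ) : Prop :=
  (∀ y : ℕ, y ≤ K * H → |(count b y : ℝ) - C / 2 * (y / Real.log H)| ≤ ε * (H / Real.log H)) ∧
  ∀ y : ℕ, y ≤ K * H → H ≤ K * y →
    1.77 * (Nat.primeCounting y : ℝ) ≤ count b y ∧ (count b y : ℝ) ≤ 1.78 * Nat.primeCounting y

open Classical in
/-- The number of the `1 ≤ b ≤ H`, `b ≡ 3 (mod W)`, for which the conclusion fails. -/
noncomputable def exceptions (C ε : ℝ) (K H W : ℕ) : ℕ :=
  ((Icc 1 H).filter (fun b : ℕ => b ≡ 3 [MOD W] ∧ ¬ Good C ε K H b)).card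

/-- The product over all primes for `k² + 3 k + 1` converges to a number `C` with `1.77 < C / 2 < 1.78`, and for all
`ε > 0` and `K ≥ 1` there is `z₁` such that for all `z ≥ z₁` and all `W ≥ 1` with `Small z W` and all large `H` the
conclusion fails for at most `ε H / W` of the `1 ≤ b ≤ H`, `b ≡ 3 (mod W)`. -/
theorem result : ∃ C : ℝ, Tendsto product atTop (𝓝 C) ∧ 1.77 < C / 2 ∧ C / 2 < 1.78 ∧
    ∀ ε : ℝ, 0 < ε → ∀ K : ℕ, 1 ≤ K → ∃ z₁ : ℕ, ∀ z : ℕ, z₁ ≤ z → ∀ W : ℕ, 1 ≤ W → Small z W →
      ∃ H₀ : ℕ, ∀ H : ℕ, H₀ ≤ H → (exceptions C ε K H W : ℝ) ≤ ε * ((H : ℝ) / W) := by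
  classical
  obtain ⟨C, hC⟩ := Pool.Agent.T9h60.BH.const_exists
  obtain ⟨h1, h2⟩ := Pool.Agent.T9h60.BH.const_bds C hC
  refine ⟨C, ?_, by linarith, by linarith, fun ε hε K hK => ?_⟩
  · refine (Pool.Agent.T9h60.BH.Sz_one_lim hC).congr (fun z => ?_)
    rw [Pool.Agent.R460.SB.Sz_prod]
    unfold product Pool.Agent.H373R2.T7.pz
    refine prod_congr rfl fun p _ => ?_
    have e : omega p = Pool.Agent.H373R2.T7.nuB (Pool.Agent.R460.SB.QS (-1) (-3) 1) p := by
      unfold omega Pool.Agent.H373R2.T7.nuB Pool.Agent.R460.SB.QS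
      congr 1
      ext m
      simp only [mem_filter]
      have e1 : (1 - (-1 * (m : ℤ) ^ 2 + -3 * (m : ℤ))) = ((m ^ 2 + 3 * m + 1 : ℕ) : ℤ) := by
        push_cast
        ring
      rw [e1, Int.natCast_dvd_natCast]
    rw [e]
  · obtain ⟨z₁, h3⟩ := Pool.Agent.T9h60.BH.lin_main C hC ε hε K hK
    refine ⟨z₁, fun z hz W hW1 hW => ?_⟩
    obtain ⟨H₀, h4⟩ := h3 z hz W hW1 ⟨fun p hp hpz => ⟨hW.1 p hp hpz, by simp⟩, hW.2⟩
    exact ⟨H₀, fun H hH => h4 H hH⟩

end Pool.Agent.Results.MP_d57abb_nt.CloseLinearCoefficients
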