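import Pool.Agent.T9h55.KQ.Law
import Pool.Agent.T9h55.KQ.Ex
import Pool.Agent.T9h55.RM.Model

/-!
# The limit of the problem for almost all sequences which are congruent to `k² + 3 k + 1` modulo `z_k!`

Let `f(k) = k² + 3 k + 1`, let `z_1 ≤ z_2 ≤ …` tend to infinity slowly, `z_k! ≤ (log k)^A`, and replace `f(k)` by
`b_k = f(k) + z_k! ξ_k` with independent random integers `ξ_k`, uniformly distributed on `0, …, H_k - 1`, where
`k² / (log k)^A ≤ z_k! H_k ≤ k² (log k)^A`. So `b_k` has the residues of `f(k)` modulo all fixed integers, for all large `k`,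
and (for `H_k` as small as possible) it differs from `f(k)` by at most `k² / (log k)^A`, `A` arbitrarily large. It is
proved that for almost all such sequences the assertion of the problem is true: the quotient of the number of the `k ≤ 10^n`
with `b_k` prime and of `π(10^n)` tends to a limit `L` between `1.77` and `1.78`, the same for almost all sequences; it is
`C / 2`, the limit predicted by Bateman and Horn for `k² + 3 k + 1`. The formula holds for all `x → ∞`, not only `x = 10^n`.

If `z_k` does not tend to infinity, the limit is different: it is `1/2 ∏_{p ≤ y} (1 - ω(p)/p) / (1 - 1/p)` for `z_k = y` (for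
`y = 1`, when there are no congruences, it is `1/2`). So the congruences modulo all primes determine the constant.

Proof. The probability that `b_k` is prime is, by the theorem of Siegel and Walfisz (starting files), close to `g_k / (2 log k)`,
where `g_k = z_k! / φ(z_k!)` if `f(k)` is prime to `z_k!` and `g_k = 0` otherwise. The mean value of the `g_k` is computed by
a sieve (starting files) on the intervals where `z_k` is constant. Exponential moments and the lemma of Borel and Cantelli give
the asymptotics almost surely. The value of the constant is from the hand-in CloseConstantTerms of helper60.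
-/

set_option autoImplicit false

namespace Pool.Agent.Results.MP_d57abb_nt.CongruentPerturbations

open Finset Filter Topology MeasureTheory ProbabilityTheory

/-- The polynomial of the problem. -/
def f (k : ℕ) : ℕ := k ^ 2 + 3 * k + 1

/-- `ω(p)`: the number of the residues `k` modulo `p` with `k² + 3 k + 1 ≡ 0`. -/
def omega (p : ℕ) : ℕ := ((range p).filter (fun k : ℕ => p ∣ f k)).card

/-- The product `∏_{p ≤ y} (1 - ω(p)/p) (1 - 1/p)⁻¹`. -/
noncomputable def product (y : ℕ) : ℝ :=
  ∏ p ∈ (Icc 1 y).filter Nat.Prime, (1 - (omega p : ℝ) / p) / (1 - 1 / (p : ℝ))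

/-- The number of the `k`, `1 ≤ k ≤ n`, for which `b k` is prime. -/
def count (b : ℕ → ℕ) (n : ℕ) : ℕ := ((Icc 1 n).filter (fun k : ℕ => (b k).Prime)).card

/-- The integers `ξ_0, ξ_1, …` are independent random variables (on a probability space), and for `k ≥ 1` the variable `ξ_k` is
uniformly distributed on `0, …, H_k - 1`. -/
structure Perturbation {Ω : Type*} [MeasurableSpace Ω] (μ : Measure Ω) (H : ℕ → ℕ) (ξ : ℕ → Ω → ℕ) : Prop where
  prob : IsProbabilityMeasure μ
  meas : ∀ k, Measurable (ξ k)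
  indep : iIndepFun ξ μ
  unif : ∀ k, 1 ≤ k → ∀ h < H k, μ.real {ω | ξ k ω = h} = 1 / (H k : ℝ)

/-- The admissible parameters: `z_k` is nondecreasing, and for all large `k` one has `z_k! ≤ (log k)^A` and
`k² / (log k)^A ≤ z_k! H_k ≤ k² (log k)^A`. -/
structure Admissible (A : ℕ) (z H : ℕ → ℕ) : Prop where
  mono : Monotone z
  modulus : ∀ᶠ k : ℕ in atTop, (((z k).factorial : ℕ) : ℝ) ≤ Real.log k ^ A
  window : ∀ᶠ k : ℕ in atTop, (k : ℝ) ^ 2 / Real.log k ^ A ≤ ((z k).factorial : ℝ) * H k ∧
    ((z k).factorial : ℝ) * H k ≤ (k : ℝ) ^ 2 * Real.log k ^ A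

lemma prod_eq (y : ℕ) : product y = Pool.Agent.T9h55.KQ.Lz y := by
  unfold Pool.Agent.T9h55.KQ.Lz
  rw [Pool.Agent.R460.SB.Sz_prod]
  unfold product Pool.Agent.H373R2.T7.pz
  refine prod_congr rfl fun p _ => ?_
  have e : omega p = Pool.Agent.H373R2.T7.nuB (Pool.Agent.R460.SB.QS (-1) (-3) 1) p := by
    unfold omega Pool.Agent.H373R2.T7.nuB
    congr 1
    ext m
    simp only [mem_filter, Pool.Agent.T9h55.KQ.QS_iff]
    rfl
  rw [e]

lemma product_pos (y : ℕ) : 0 < product y := by
  unfold product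
  refine prod_pos fun p hp => ?_
  rw [mem_filter] at hp
  have hp2 := hp.2.two_le
  have hp0 : (0 : ℝ) < p := by exact_mod_cast hp.2.pos
  have hp1 : (1 : ℝ) < p := by exact_mod_cast hp.2.one_lt
  have h1 : omega p < p := by
    unfold omega
    have h2 : (range p).filter (fun k : ℕ => p ∣ f k) ⊂ range p := by
      rw [Finset.ssubset_iff_of_subset (filter_subset _ _)]
      refine ⟨0, mem_range.2 hp.2.pos, ?_⟩
      rw [mem_filter]
      rintro ⟨-, h3⟩
      have : f 0 = 1 := rfl
      rw [this] at h3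
      exact hp.2.one_lt.ne' (Nat.dvd_one.1 h3)
    have h3 := card_lt_card h2
    rwa [card_range] at h3
  have h2 : (omega p : ℝ) < p := by exact_mod_cast h1
  apply div_pos
  · rw [sub_pos, div_lt_one hp0]
    exact h2
  · rw [sub_pos, div_lt_one hp0]
    exact hp1

universe u

/-- The product converges to a number `C` with `1.77 < C / 2 < 1.78`; for every `A ≥ 1` there are admissible `z`, `H` with
`z_k → ∞`, `H_k ≥ 1` and `z_k! H_k ≤ 2 k² / (log k)^A` for large `k`; for all admissible `z`, `H` with `H_k ≥ 1` there are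
independent `ξ_k`, uniform on `0, …, H_k - 1`, and for all such `ξ_k` the numbers `b_k = k² + 3 k + 1 + z_k! ξ_k` satisfy:

(1) if `z_k → ∞`, then almost surely `b_k ≡ k² + 3 k + 1` modulo every `m ≥ 1` for all large `k`, the quotient of the number of
the `k ≤ n` with `b_k` prime and of `π(n)` tends to `C / 2` as `n → ∞`, and so does the quotient of the number of the
`k ≤ 10^n` with `b_k` prime and of `π(10^n)`;

(2) if `z_k = y` for all `k`, then almost surely the quotient of the number of the `k ≤ n` with `b_k` prime and of `π(n)`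
tends to `1/2 ∏_{p ≤ y} (1 - ω(p)/p) (1 - 1/p)⁻¹`. -/
theorem result : ∃ C : ℝ, Tendsto product atTop (𝓝 C) ∧ 1.77 < C / 2 ∧ C / 2 < 1.78 ∧
    (∀ A : ℕ, 1 ≤ A → ∃ z H : ℕ → ℕ, Admissible A z H ∧ Tendsto z atTop atTop ∧ (∀ k, 1 ≤ H k) ∧
      ∀ᶠ k : ℕ in atTop, ((z k).factorial : ℝ) * H k ≤ 2 * ((k : ℝ) ^ 2 / Real.log k ^ A)) ∧
    ∀ (A : ℕ) (z H : ℕ → ℕ), Admissible A z H →
      ((∀ k, 1 ≤ k → 1 ≤ H k) →
        ∃ (Ω : Type) (_ : MeasurableSpace Ω) (μ : Measure Ω) (ξ : ℕ → Ω → ℕ), Perturbation μ H ξ) ∧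
      ∀ (Ω : Type u) [MeasurableSpace Ω] (μ : Measure Ω) (ξ : ℕ → Ω → ℕ), Perturbation μ H ξ →
        (Tendsto z atTop atTop → ∀ᵐ ω ∂μ,
          (∀ m : ℕ, 1 ≤ m → ∀ᶠ k in atTop, f k + (z k).factorial * ξ k ω ≡ f k [MOD m]) ∧
          Tendsto (fun n : ℕ => (count (fun k => f k + (z k).factorial * ξ k ω) n : ℝ) / Nat.primeCounting n)
            atTop (𝓝 (C / 2)) ∧
          Tendsto (fun n : ℕ => (count (fun k => f k + (z k).factorial * ξ k ω) (10 ^ n) : ℝ) /
            Nat.primeCounting (10 ^ n)) atTop (𝓝 (C / 2))) ∧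
        ∀ y : ℕ, (∀ k, z k = y) → ∀ᵐ ω ∂μ,
          Tendsto (fun n : ℕ => (count (fun k => f k + (z k).factorial * ξ k ω) n : ℝ) / Nat.primeCounting n)
            atTop (𝓝 (product y / 2)) := by
  classical
  obtain ⟨C, hC⟩ := Pool.Agent.T9h60.BH.const_exists
  obtain ⟨h1, h2⟩ := Pool.Agent.T9h60.BH.const_bds C hC
  have hCp : Tendsto product atTop (𝓝 C) := by
    refine (Pool.Agent.T9h60.BH.Sz_one_lim hC).congr fun y => ?_
    rw [prod_eq]
    rfl
  refine ⟨C, hCp, by linarith, by linarith, fun A hA => ?_, fun A z H hadm => ⟨fun hH => ?_, ?_⟩⟩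
  · obtain ⟨z, H, h3, h4, h5, h6, h7⟩ := Pool.Agent.T9h55.KQ.exists_adm A
    have hlog : Tendsto (fun k : ℕ => Real.log (k : ℝ)) atTop atTop :=
      Real.tendsto_log_atTop.comp tendsto_natCast_atTop_atTop
    refine ⟨z, H, ⟨h3, ?_, ?_⟩, h4, h7, ?_⟩
    · filter_upwards [h5, hlog.eventually_ge_atTop 1] with k h8 h9
      exact h8.trans (le_self_pow₀ h9 (by omega))
    · filter_upwards [h6, hlog.eventually_ge_atTop 2] with k h8 h9
      refine ⟨h8.1, h8.2.trans ?_⟩
      have h10 : 2 ≤ Real.log k ^ A := le_trans h9 (le_self_pow₀ (by linarith) (by omega))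
      have h11 : (0 : ℝ) ≤ (k : ℝ) ^ 2 := by positivity
      have h12 : (k : ℝ) ^ 2 / Real.log k ^ A ≤ (k : ℝ) ^ 2 / 2 := div_le_div_of_nonneg_left h11 two_pos h10
      have h13 : (k : ℝ) ^ 2 ≤ (k : ℝ) ^ 2 * Real.log k ^ A := le_mul_of_one_le_right h11 (by linarith)
      linarith
    · filter_upwards [h6] with k h8
      exact h8.2
  · obtain ⟨Ω, mΩ, μ, ξ, h3, h4, h5, h6⟩ := Pool.Agent.T9h55.RM.exists_unif H hH
    exact ⟨Ω, mΩ, μ, ξ, ⟨h3, h4, h5, h6⟩⟩
  · intro Ω _ μ ξ hξ
    have := hξ.prob
    constructor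
    · intro hz
      have hc : Tendsto (fun k => Pool.Agent.T9h55.KQ.Lz (z k)) atTop (𝓝 C) := by
        refine (hCp.comp hz).congr fun k => ?_
        simp only [Function.comp_apply]
        exact prod_eq _
      filter_upwards [Pool.Agent.T9h55.KQ.law A z H ξ C (by linarith) hadm.mono hc hadm.modulus hadm.window hξ.meas
        hξ.indep hξ.unif] with ω hω
      refine ⟨fun m hm => ?_, hω, ?_⟩
      · filter_upwards [hz.eventually_ge_atTop m] with k hk
        have h3 : m ∣ (z k).factorial * ξ k ω := (Nat.dvd_factorial hm hk).mul_right _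
        have h4 : (z k).factorial * ξ k ω ≡ 0 [MOD m] := (Nat.modEq_zero_iff_dvd).2 h3
        exact h4.add_left (f k)
      · exact hω.comp (tendsto_pow_atTop_atTop_of_one_lt (by norm_num : (1 : ℕ) < 10))
    · intro y hy
      have hc : Tendsto (fun k => Pool.Agent.T9h55.KQ.Lz (z k)) atTop (𝓝 (product y)) := by
        refine (tendsto_const_nhds).congr fun k => ?_
        rw [hy k, prod_eq]
      exact Pool.Agent.T9h55.KQ.law A z H ξ (product y) (product_pos y) hadm.mono hc hadm.modulus hadm.window hξ.meas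
        hξ.indep hξ.unif

end Pool.Agent.Results.MP_d57abb_nt.CongruentPerturbations
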